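import Pool.Agent.H34.GA.Targets1
import Pool.Agent.H27.GU.THT

/-!
Row THG of the board ga: the theta series, polynomial decay.
-/

set_option autoImplicit false

namespace Pool.Agent.H27.GA

open MeasureTheory Pool.Agent.H34.GM Pool.Agent.H34.GZ Pool.Agent.H34.GU Pool.Agent.H34.GA

theorem pf_THG (hC : T_CNT) : T_THG := by
  intro m hm1
  refine ⟨m * m + 2, fun ρ hρ => ?_⟩
  obtain ⟨C, hC0, H⟩ := Pool.Agent.H27.GU.sc_tht hC hm1 ((m * m + 2 : ℕ) : ℝ)
    (by push_cast; linarith) ρ hρ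
  refine ⟨C, hC0, ?_⟩
  intro g h hg _ hh _
  have hm0 : (1 / (m : ℝ)) ≠ 0 := by
    have : (0 : ℝ) < m := by exact_mod_cast hm1
    positivity
  have hdet : ∀ z : Mat m, 1 ≤ aN z → z.det ≠ 0 := by
    intro z hz h0
    unfold aN at hz
    rw [h0, abs_zero, Real.zero_rpow hm0] at hz
    linarith
  rw [mul_assoc]
  exact H g h (hdet g hg) (hdet h hh)

end Pool.Agent.H27.GA
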